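import Pool.Agent.MNU.StmtsU

set_option autoImplicit false

namespace Pool.Agent.MNU.H20

open Polynomial NumberField Pool.Agent.MNU
open scoped Classical

theorem cne (hext : UBT.Ext1Stmt) : CneStmt := by
  intro m d b hm
  refine ⟨d * b.factorial * (d * b.factorial).factorial, ?_⟩
  intro K M _ _ _ _ _ hd ξ h hh hb hξ
  have hfin : FiniteDimensional K M := Module.Finite.of_restrictScalars_finite ℚ K M
  -- the splitting field of `h`
  obtain ⟨E₁, iE₁, iN₁, iA₁, hsp₁, hdeg₁⟩ := hext M h hh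
  let iK₁ : Algebra K E₁ := ((algebraMap M E₁).comp (algebraMap K M)).toAlgebra
  have hT₁ : IsScalarTower K M E₁ := IsScalarTower.of_algebraMap_eq' rfl
  have hfin₁ : FiniteDimensional K E₁ := Module.Finite.of_restrictScalars_finite ℚ K E₁
  have hdE : Module.finrank ℚ E₁ ≤ d * b.factorial := by
    have h1 : Module.finrank ℚ M * Module.finrank M E₁ = Module.finrank ℚ E₁ :=
      Module.finrank_mul_finrank ℚ M E₁
    rw [← h1]
    exact Nat.mul_le_mul hd (hdeg₁.trans (Nat.factorial_le hb))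
  have hdK : Module.finrank K E₁ ≤ d * b.factorial := by
    have h3 : Module.finrank ℚ K * Module.finrank K E₁ = Module.finrank ℚ E₁ :=
      Module.finrank_mul_finrank ℚ K E₁
    have h4 : 0 < Module.finrank ℚ K := Module.finrank_pos
    calc Module.finrank K E₁ ≤ Module.finrank ℚ K * Module.finrank K E₁ :=
          Nat.le_mul_of_pos_left _ h4
      _ = Module.finrank ℚ E₁ := h3
      _ ≤ _ := hdE
  obtain ⟨θ, hθ⟩ := Field.exists_primitive_element K E₁
  have hθ0 : minpoly K θ ≠ 0 := minpoly.ne_zero (Algebra.IsIntegral.isIntegral θ)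
  obtain ⟨E, iE, iN, iA, hsp, hdeg⟩ := hext E₁ ((minpoly K θ).map (algebraMap K E₁))
    ((Polynomial.map_ne_zero_iff (algebraMap K E₁).injective).mpr hθ0)
  let iK : Algebra K E := ((algebraMap E₁ E).comp (algebraMap K E₁)).toAlgebra
  let iM : Algebra M E := ((algebraMap E₁ E).comp (algebraMap M E₁)).toAlgebra
  have hT : IsScalarTower K E₁ E := IsScalarTower.of_algebraMap_eq' rfl
  have hTM : IsScalarTower K M E := IsScalarTower.of_algebraMap_eq' rfl
  rw [Polynomial.map_map, ← IsScalarTower.algebraMap_eq K E₁ E] at hsp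
  rw [Polynomial.natDegree_map] at hdeg
  have hall : ∀ s : E₁, ((minpoly K s).map (algebraMap K E)).Splits := by
    intro s
    refine IntermediateField.splits_of_mem_adjoin K E₁ (S := {θ}) ?_ ?_
    · intro t ht
      rw [Set.mem_singleton_iff] at ht
      subst ht
      exact ⟨Algebra.IsIntegral.isIntegral _, hsp⟩
    · rw [hθ]; exact IntermediateField.mem_top
  obtain ⟨ξ₁, hξ₁⟩ : ∃ ξ₁ : E₁, ξ₁ = algebraMap M E₁ ξ := ⟨_, rfl⟩
  have hmin : minpoly K ξ₁ = minpoly K ξ := by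
    rw [hξ₁]
    exact minpoly.algebraMap_eq (algebraMap M E₁).injective ξ
  have hkey : ∀ x' : E, aeval x' (minpoly K ξ₁) = 0 → ∃ φ : E₁ →ₐ[K] E, φ ξ₁ = x' ∧
      (x' = algebraMap E₁ E ξ₁ → ∀ a, φ a = algebraMap E₁ E a) := by
    intro x' hx'
    by_cases hc : x' = algebraMap E₁ E ξ₁
    · exact ⟨IsScalarTower.toAlgHom K E₁ E, hc.symm, fun _ a => rfl⟩
    · obtain ⟨φ, hφ⟩ := IntermediateField.exists_algHom_of_splits_of_aeval
        (fun s => ⟨Algebra.IsIntegral.isIntegral s, hall s⟩) hx'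
      exact ⟨φ, hφ, fun h1 => absurd h1 hc⟩
  have hsep : (minpoly K ξ₁).Separable := (Algebra.IsSeparable.isSeparable K ξ₁)
  have hcard : Fintype.card ((minpoly K ξ₁).rootSet E) = (minpoly K ξ₁).natDegree :=
    card_rootSet_eq_natDegree hsep (hall ξ₁)
  obtain ⟨R, hR⟩ : ∃ R : Finset E, R = ((minpoly K ξ₁).rootSet E).toFinset := ⟨_, rfl⟩
  have hRc : m ≤ R.card := by
    rw [hR, Set.toFinset_card, hcard, hmin]; exact hξ
  have hm0 : minpoly K ξ₁ ≠ 0 := minpoly.ne_zero (Algebra.IsIntegral.isIntegral ξ₁)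
  have hx0 : algebraMap E₁ E ξ₁ ∈ R := by
    rw [hR, Set.mem_toFinset, mem_rootSet_of_ne hm0, Polynomial.aeval_algebraMap_apply,
      minpoly.aeval, map_zero]
  obtain ⟨T, hT1, hTR, hTc⟩ := Finset.exists_subsuperset_card_eq
    (Finset.singleton_subset_iff.mpr hx0) (by rw [Finset.card_singleton]; exact hm) hRc
  obtain ⟨e⟩ : Nonempty (Fin m ≃ T) := ⟨(T.equivFinOfCardEq hTc).symm⟩
  have hroot : ∀ i, aeval ((e i : T) : E) (minpoly K ξ₁) = 0 := by
    intro i
    have h1 : ((e i : T) : E) ∈ R := hTR (e i).2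
    rw [hR, Set.mem_toFinset] at h1
    exact ((mem_rootSet_of_ne hm0).mp h1)
  choose φ hφ hφ' using fun i => hkey _ (hroot i)
  have hσ : ∀ (i : Fin m) (a : M), ((φ i).comp (IsScalarTower.toAlgHom K M E₁)) a =
      φ i (algebraMap M E₁ a) := fun i a => rfl
  refine ⟨E, iE, iN, iK, iM, hTM, fun i => (φ i).comp (IsScalarTower.toAlgHom K M E₁), ?_, ?_,
    ?_, ?_⟩
  · have h1 : Module.finrank ℚ E₁ * Module.finrank E₁ E = Module.finrank ℚ E :=
      Module.finrank_mul_finrank ℚ E₁ E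
    rw [← h1]
    refine Nat.mul_le_mul hdE (hdeg.trans (Nat.factorial_le ?_))
    exact (minpoly.natDegree_le θ).trans hdK
  · intro i
    have h1 : h.map ((φ i).comp (IsScalarTower.toAlgHom K M E₁)).toRingHom =
        (h.map (algebraMap M E₁)).map (φ i).toRingHom := by
      rw [Polynomial.map_map]
      rfl
    rw [h1]
    exact hsp₁.map _
  · intro i j hij
    have h1 : φ i ξ₁ = φ j ξ₁ := by
      have h2 : φ i (algebraMap M E₁ ξ) = φ j (algebraMap M E₁ ξ) := hij
      rw [hξ₁]; exact h2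
    rw [hφ i, hφ j] at h1
    exact e.injective (Subtype.ext h1)
  · refine ⟨e.symm ⟨algebraMap E₁ E ξ₁, hT1 (Finset.mem_singleton_self _)⟩, fun a => ?_⟩
    rw [hσ, hφ' _ (by rw [Equiv.apply_symm_apply])]
    rfl

end Pool.Agent.MNU.H20
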